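import Pool.Agent.helper22.RG9.Spec2

/-!
# Row rg9:GR2 (MP_a2a22c_al): the elements of the root subgroups of a weak grading are quasi-unipotent
-/

set_option autoImplicit false

namespace Pool.Agent.RG9

open Matrix Pool.Agent.H48SL Pool.Agent.UG

theorem GR2 (hQUN : QUN_stmt) (hLGF : LGF_stmt) : GR2_stmt := by
  intro n m N hm X hX i k hik g hgX
  obtain ⟨j, hj⟩ : ∃ j : Fin m, j ∉ ({i, k} : Finset (Fin m)) := by
    by_contra h
    push Not at h
    have h1 : (Finset.univ : Finset (Fin m)) ⊆ {i, k} := fun j _ => h j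
    have h2 := Finset.card_le_card h1
    have h3 := Finset.card_le_two (a := i) (b := k)
    rw [Finset.card_univ, Fintype.card_fin] at h2
    omega
  rw [Finset.mem_insert, Finset.mem_singleton, not_or] at hj
  obtain ⟨hji, hjk⟩ := hj
  obtain ⟨-, hmul, hinv, -, -, -, hone, -⟩ := hLGF n
  have hab : ∀ x ∈ X i k, ∀ y ∈ X i k, x * y = y * x := hX.comm i k i k hik hik (Ne.symm hik) hik
  have hle : Subgroup.closure {g | ∃ x ∈ X i j, ∃ y ∈ X j k, g = x * y * x⁻¹ * y⁻¹} ≤ X i k := by
    rw [Subgroup.closure_le]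
    rintro c ⟨x, hx, y, hy, rfl⟩
    exact hX.sub i j k (Ne.symm hji) hjk hik x hx y hy
  have key : ∀ h ∈ Subgroup.closure {g | ∃ x ∈ X i j, ∃ y ∈ X j k, g = x * y * x⁻¹ * y⁻¹}, Unp (h ^ n.factorial) := by
    intro h hh
    induction hh using Subgroup.closure_induction with
    | mem c hc =>
      have hcX : c ∈ X i k := hle (Subgroup.subset_closure hc)
      obtain ⟨x, hx, y, hy, hxy⟩ := hc
      exact hQUN n x y c hxy (hX.comm i k i j hik (Ne.symm hji) (Ne.symm hik) (Ne.symm hji) c hcX x hx)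
        (hX.comm i k j k hik hjk (Ne.symm hjk) hik c hcX y hy)
    | one =>
      rw [one_pow]
      exact hone
    | mul g h hg' hh' ihg ihh =>
      have hc : g * h = h * g := hab g (hle hg') h (hle hh')
      have hc1 : Commute g h := hc
      rw [hc1.mul_pow]
      exact (hmul _ _ ihg ihh (hc1.pow_pow _ _).eq).1
    | inv g hg' ihg =>
      rw [inv_pow]
      exact (hinv _ ihg).1
  rw [pow_mul]
  exact key _ (hX.pow i j k (Ne.symm hji) hjk hik g hgX)

end Pool.Agent.RG9
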